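import Pool.Agent.helper23.CX.LC

/-! # MP_c3df8c_co, module cx:GD : the concrete data are good -/

open Set

namespace Pool.Agent.helper78.CX

theorem GD_bit (b : Bool) : 0 ≤ bit b ∧ bit b ≤ 1 := by
  cases b <;> simp [bit]

theorem GD_wt_pos (n : ℕ) (k : Kap n) : 0 < wt n k := by
  rcases k with p | a
  · exact one_pos
  · exact Finset.sum_pos (fun i _ => MM_pos _ _) Finset.univ_nonempty

theorem GD_sum (n e : ℕ) (θ : ℝ) (k : Kap n) (s : JJ e → ℝ) :
    ∑ j, ww n e θ k j * s j =
      ∑ l, bet n θ l k * (s (.inl (l, true)) - s (.inl (l, false))) := by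
  rw [Fintype.sum_sum_type, Fintype.sum_prod_type]
  have h1 : ∑ x : Fin e, ww n e θ k (.inr x) * s (.inr x) = 0 := by
    apply Finset.sum_eq_zero
    intro x _
    simp [ww]
  rw [h1, add_zero]
  apply Finset.sum_congr rfl
  intro l _
  rw [Fintype.sum_bool]
  simp only [ww]
  ring

theorem GD_sum_zero (n e : ℕ) (θ : ℝ) (k : Kap n) (s : JJ e → ℝ)
    (hs : ∀ l, s (.inl (l, true)) = s (.inl (l, false))) : ∑ j, ww n e θ k j * s j = 0 := by
  rw [GD_sum]
  apply Finset.sum_eq_zero
  intro l _
  rw [hs, sub_self, mul_zero]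

theorem GD_bound {n : ℕ} {θ ε : ℝ} (h : Small n θ ε) (e : ℕ) (k : Kap n) (s : JJ e → ℝ)
    (hs : ∀ j, 0 ≤ s j ∧ s j ≤ 1) : |∑ j, ww n e θ k j * s j| ≤ ε * wt n k := by
  rw [GD_sum]
  refine (Finset.abs_sum_le_sum_abs _ _).trans ((Finset.sum_le_sum ?_).trans (h.2.2.2.1 k))
  intro l _
  rw [abs_mul]
  apply mul_le_of_le_one_right (abs_nonneg _)
  rw [abs_le]
  have h1 := hs (.inl (l, true))
  have h2 := hs (.inl (l, false))
  constructor <;> linarith [h1.1, h1.2, h2.1, h2.2]

theorem GD_NN_false (n : ℕ) (i : Fin 3) (y : Fin 3 → ℝ) :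
    ∑ i', NN n (.inl (i, false)) i' * y i' = y i := by
  simp [NN, Pi.single_apply]

theorem GD_NN_true (n : ℕ) (i : Fin 3) (y : Fin 3 → ℝ) :
    ∑ i', NN n (.inl (i, true)) i' * y i' = -y i := by
  simp [NN, Pi.single_apply]

theorem GD_NN_inr (n : ℕ) (a : {a : ℤ × ℤ // a ∈ Box n}) (y : Fin 3 → ℝ) :
    ∑ i', NN n (.inr a) i' * y i' = ∑ i', MM a.1 i' * y i' := rfl

theorem GD_half (n : ℕ) (a : {a : ℤ × ℤ // a ∈ Box n}) :
    ∑ i', MM a.1 i' * (1 / 2 : ℝ) = wt n (.inr a) / 2 := by
  rw [← Finset.sum_mul]
  simp only [wt]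
  ring

/-- at `y = 1/2` all the constraints hold strictly, with room `wt / 4` -/
theorem GD_mid {n : ℕ} {θ ε : ℝ} (hε : ε ≤ 1 / 4) (h : Small n θ ε) (e : ℕ) (k : Kap n)
    (s : JJ e → ℝ) (hs : ∀ j, 0 ≤ s j ∧ s j ≤ 1) :
    cc n k + ∑ j, ww n e θ k j * s j < ∑ i, NN n k i * (fun _ => 1 / 2 : Fin 3 → ℝ) i := by
  have h1 := GD_bound h e k s hs
  have h2 := (abs_le.mp h1).2
  have hw := GD_wt_pos n k
  have h3 : ε * wt n k ≤ 1 / 4 * wt n k := mul_le_mul_of_nonneg_right hε hw.le
  rcases k with ⟨i, b⟩ | a
  · have hw1 : wt n (.inl (i, b)) = 1 := rfl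
    rw [hw1] at h2 h3
    cases b
    · rw [GD_NN_false]
      simp only [cc]
      linarith
    · rw [GD_NN_true]
      simp only [cc]
      linarith
  · rw [GD_NN_inr, GD_half]
    simp only [cc]
    linarith

theorem GD_mod (m : ℤ) : ∃ (r : Fin 30) (t : ℤ), m = ((r : ℕ) : ℤ) + 30 * t := by
  refine ⟨⟨(m % 30).toNat, by omega⟩, m / 30, ?_⟩
  simp only
  omega

theorem good_concrete (n e : ℕ) (θ ε : ℝ) (hε : ε ≤ 1 / 4) (h : Small n θ ε) :
    Good (NN n) (cc n) (ww n e θ) := by
  obtain ⟨hn, hθ, hθ1, hsm, hz⟩ := id h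
  refine ⟨?_, ?_, ?_, ?_, ?_⟩
  · -- interior point
    refine ⟨fun _ => 1 / 2, fun _ => 1 / 2, fun _ => ⟨by norm_num, by norm_num⟩, fun k => ?_⟩
    exact GD_mid hε h e k _ fun _ => ⟨by norm_num, by norm_num⟩
  · -- the points where exactly the constraint `k` is tight
    intro k
    rcases k with ⟨i, b⟩ | a
    · refine ⟨fun _ => 1 / 2, fun i' => if i' = i then bit b else 1 / 2,
        fun _ => ⟨by norm_num, by norm_num⟩, ?_, ?_⟩
      · rw [GD_sum_zero _ _ _ _ _ (fun _ => rfl), add_zero]
        cases b
        · rw [GD_NN_false]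
          simp [cc, bit]
        · rw [GD_NN_true]
          simp [cc, bit]
      · intro k' hk'
        rw [GD_sum_zero _ _ _ _ _ (fun _ => rfl), add_zero]
        rcases k' with ⟨i', b'⟩ | a
        · by_cases hi : i' = i
          · subst hi
            have hb : b' ≠ b := by
              intro hb
              exact hk' (by rw [hb])
            cases b' <;> cases b
            · exact absurd rfl hb
            · rw [GD_NN_false]
              simp [cc, bit]
            · rw [GD_NN_true]
              simp [cc, bit]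
            · exact absurd rfl hb
          · cases b'
            · rw [GD_NN_false]
              simp only [cc, if_neg hi]
              norm_num
            · rw [GD_NN_true]
              simp only [cc, if_neg hi]
              norm_num
        · rw [GD_NN_inr]
          simp only [cc]
          have hex : ∃ i' : Fin 3, i' ≠ i := by
            by_cases h0 : i = 0
            · exact ⟨1, by rw [h0]; decide⟩
            · exact ⟨0, fun h1 => h0 h1.symm⟩
          obtain ⟨i', hi'⟩ := hex
          apply Finset.sum_pos'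
          · intro i'' _
            apply mul_nonneg (MM_pos _ _).le
            split_ifs
            · exact (GD_bit b).1
            · norm_num
          · refine ⟨i', Finset.mem_univ _, ?_⟩
            rw [if_neg hi']
            exact mul_pos (MM_pos _ _) (by norm_num)
    · obtain ⟨r1, t1, h1⟩ := GD_mod a.1.1
      obtain ⟨r2, t2, h2⟩ := GD_mod a.1.2
      have hbp : a.1 = bp (r1, r2) (t1, t2) := by
        apply Prod.ext
        · simpa [bp] using h1
        · simpa [bp] using h2
      have h0 : ((0, 0) : ℤ × ℤ) ∈ XX 3 := by decide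
      have hX : ∀ x ∈ XX 3, x = (0, 0) := by decide
      have hbp' : a.1 = bp (r1, r2) (t1, t2) + (0, 0) := by
        rw [hbp]
        simp
      have hfit : Fits n 3 (r1, r2) (t1, t2) := by
        intro x hx
        rw [hX x hx, ← hbp']
        exact a.2
      set l : Cls := .inr (.inr (3, (r1, r2))) with hl
      have hzt : ∀ i, 0 < θ * zt (r1, r2) (t1, t2) i / 3 := fun i => by
        have := mul_pos hθ (zt_pos (r1, r2) (t1, t2) i)
        positivity
      have hzt1 : ∀ i, θ * zt (r1, r2) (t1, t2) i < 1 := hz 3 (r1, r2) (t1, t2) hfit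
      classical
      set s : JJ e → ℝ := fun j => if j = .inl (l, true) then 2 / 3 else
        if j = .inl (l, false) then 1 / 3 else 1 / 2 with hs
      have hsum : ∀ k' : Kap n, ∑ j, ww n e θ k' j * s j = bet n θ l k' / 3 := by
        intro k'
        rw [GD_sum, Finset.sum_eq_single l]
        · have e1 : s (.inl (l, true)) = 2 / 3 := by simp [hs]
          have e2 : s (.inl (l, false)) = 1 / 3 := by simp [hs]
          rw [e1, e2]
          ring
        · intro l' _ hl'
          have e1 : s (.inl (l', true)) = 1 / 2 := by simp [hs, hl']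
          have e2 : s (.inl (l', false)) = 1 / 2 := by simp [hs, hl']
          rw [e1, e2]
          ring
        · intro hl'
          exact absurd (Finset.mem_univ _) hl'
      have hyy : ∀ a' : {a : ℤ × ℤ // a ∈ Box n},
          ∑ i, MM a'.1 i * (θ * zt (r1, r2) (t1, t2) i / 3) =
            θ * (∑ i, MM a'.1 i * zt (r1, r2) (t1, t2) i) / 3 := by
        intro a'
        rw [Finset.mul_sum, Finset.sum_div]
        apply Finset.sum_congr rfl
        intro i _
        ring
      refine ⟨s, fun i => θ * zt (r1, r2) (t1, t2) i / 3, ?_, ?_, ?_⟩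
      · intro j
        simp only [hs]
        split_ifs <;> constructor <;> norm_num
      · rw [hsum, GD_NN_inr, hyy]
        simp only [cc, hl, bet]
        rw [hbp', off_eq n 3 (r1, r2) (t1, t2) (0, 0) h0 hfit, zero_add]
      · intro k' hk'
        rw [hsum]
        rcases k' with ⟨i', b'⟩ | a'
        · cases b'
          · rw [GD_NN_false]
            simp only [cc, hl, bet]
            simpa using hzt i'
          · rw [GD_NN_true]
            simp only [cc, hl, bet]
            have h3 := hzt i'
            have h4 := hzt1 i'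
            linarith
        · rw [GD_NN_inr, hyy]
          simp only [cc, hl, bet]
          obtain ⟨h3, h4⟩ := off_le n 3 (r1, r2) (t1, t2) hfit a'.1
          have h5 : off n 3 (r1, r2) a'.1 ≠ ∑ i, MM a'.1 i * zt (r1, r2) (t1, t2) i := by
            intro h6
            obtain ⟨x, hx, h7⟩ := h4 h6
            rw [hX x hx, ← hbp'] at h7
            exact hk' (congrArg Sum.inr (Subtype.ext h7))
          have h6 := lt_of_le_of_ne h3 h5
          have h7 := mul_lt_mul_of_pos_left h6 hθ
          linarith
  · -- the facets of the cube factor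
    intro j b
    classical
    refine ⟨fun j' => if j' = j then bit b else 1 / 2, fun _ => 1 / 2, by simp, ?_, ?_⟩
    · intro j' hj'
      simp only [if_neg hj']
      constructor <;> norm_num
    · intro k
      apply GD_mid hε h e k
      intro j'
      split_ifs
      · exact GD_bit b
      · constructor <;> norm_num
  · -- intersections of a facet `k` and a facet of the cube factor
    intro k j b
    have hs0 : ∀ k' : Kap n, ∑ j, ww n e θ k' j * (fun _ => bit b : JJ e → ℝ) j = 0 :=
      fun k' => GD_sum_zero _ _ _ _ _ (fun _ => rfl)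
    have hzero : InPoly (NN n) (cc n) (ww n e θ) (fun _ => bit b) (fun _ => 0) := by
      refine ⟨fun _ => GD_bit b, fun k' => ?_⟩
      rw [hs0, add_zero]
      simp only [mul_zero, Finset.sum_const_zero]
      rcases k' with ⟨i', b'⟩ | a'
      · cases b' <;> simp [cc]
      · simp [cc]
    have hone : InPoly (NN n) (cc n) (ww n e θ) (fun _ => bit b) (fun _ => 1) := by
      refine ⟨fun _ => GD_bit b, fun k' => ?_⟩
      rw [hs0, add_zero]
      rcases k' with ⟨i', b'⟩ | a'
      · cases b'
        · rw [GD_NN_false]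
          simp [cc]
        · rw [GD_NN_true]
          simp [cc]
      · rw [GD_NN_inr]
        simp only [cc, mul_one]
        exact Finset.sum_nonneg fun i _ => (MM_pos _ _).le
    rcases k with ⟨i', b'⟩ | a'
    · cases b'
      · refine ⟨fun _ => bit b, fun _ => 0, hzero, rfl, ?_⟩
        rw [hs0, GD_NN_false]
        simp [cc]
      · refine ⟨fun _ => bit b, fun _ => 1, hone, rfl, ?_⟩
        rw [hs0, GD_NN_true]
        simp [cc]
    · refine ⟨fun _ => bit b, fun _ => 0, hzero, rfl, ?_⟩
      rw [hs0, GD_NN_inr]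
      simp [cc]
  · -- intersections of two facets of the cube factor
    intro j j' hjj b b'
    classical
    have hs : ∀ j'' : JJ e, 0 ≤ (fun j'' : JJ e => if j'' = j then bit b else
        if j'' = j' then bit b' else 1 / 2) j'' ∧ (fun j'' : JJ e => if j'' = j then bit b else
        if j'' = j' then bit b' else 1 / 2) j'' ≤ 1 := by
      intro j''
      simp only
      split_ifs
      · exact GD_bit b
      · exact GD_bit b'
      · constructor <;> norm_num
    refine ⟨fun j'' => if j'' = j then bit b else if j'' = j' then bit b' else 1 / 2,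
      fun _ => 1 / 2, ⟨hs, fun k => (GD_mid hε h e k _ hs).le⟩, by simp, ?_⟩
    simp [hjj.symm]

/-- the slice of the class `l` -/
theorem slice_class (n e : ℕ) (θ : ℝ) (l : Cls) : ∃ s : JJ e → Bool,
    ∀ k, cc n k + ∑ j, ww n e θ k j * bit (s j) = cc n k + bet n θ l k := by
  classical
  obtain ⟨s, hs⟩ : ∃ s : JJ e → Bool, ∀ j, s j = true ↔ j = .inl (l, true) :=
    ⟨fun j => decide (j = .inl (l, true)), fun j => by simp⟩
  refine ⟨s, fun k => ?_⟩
  have h1 : s (.inl (l, true)) = true := (hs _).mpr rfl
  have h2 : ∀ l', s (.inl (l', false)) = false := by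
    intro l'
    rw [← Bool.not_eq_true, hs]
    intro h
    have := Sum.inl_injective h
    simp at this
  have h3 : ∀ l', l' ≠ l → s (.inl (l', true)) = false := by
    intro l' hl'
    rw [← Bool.not_eq_true, hs]
    intro h
    have := Sum.inl_injective h
    simp at this
    exact hl' this
  rw [GD_sum n e θ k (fun j => bit (s j)), Finset.sum_eq_single l]
  · simp only [h1, h2, bit]
    simp
  · intro l' _ hl'
    simp only [h2, h3 l' hl', sub_self, mul_zero]
  · intro hl'
    exact absurd (Finset.mem_univ _) hl'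

theorem slice_zero (n e : ℕ) (θ : ℝ) :
    ∀ k, cc n k + ∑ j, ww n e θ k j * bit ((fun _ => false : JJ e → Bool) j) = cc n k := by
  intro k
  simp [bit]

end Pool.Agent.helper78.CX
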