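import Pool.Agent.helper78.CX.Defs

/-! # MP_c3df8c_co, module cx:LC : localisation of the gadgets -/

open Set

namespace Pool.Agent.helper78.CX

theorem LC_LL_pos : 0 < LL := by norm_num [LL]

theorem LC_LL_one : 1 < LL := by norm_num [LL]

theorem zt_pos (r : Fin 30 × Fin 30) (t : ℤ × ℤ) (i : Fin 3) : 0 < zt r t i := by
  have := LC_LL_pos
  fin_cases i <;> simp only [zt] <;> exact zpow_pos this _

theorem MM_pos (a : ℤ × ℤ) (i : Fin 3) : 0 < MM a i := by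
  have := LC_LL_pos
  fin_cases i
  · exact zpow_pos this _
  · exact zpow_pos this _
  · exact one_pos

theorem LC_XX (j : Fin 4) (x : ℤ × ℤ) (hx : x ∈ XX j) :
    -3 ≤ x.1 ∧ x.1 ≤ 4 ∧ -3 ≤ x.2 ∧ x.2 ≤ 4 := by
  revert x
  revert j
  decide

/-- the decomposition `a = bp r t + x` is unique -/
theorem bp_unique (r : Fin 30 × Fin 30) (j : Fin 4) (t t' : ℤ × ℤ) (x x' : ℤ × ℤ)
    (hx : x ∈ XX j) (hx' : x' ∈ XX j) (h : bp r t + x = bp r t' + x') : t = t' ∧ x = x' := by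
  obtain ⟨a1, a2, a3, a4⟩ := LC_XX j x hx
  obtain ⟨b1, b2, b3, b4⟩ := LC_XX j x' hx'
  have h1 := congrArg Prod.fst h
  have h2 := congrArg Prod.snd h
  simp only [bp, Prod.fst_add, Prod.snd_add] at h1 h2
  constructor
  · apply Prod.ext <;> omega
  · apply Prod.ext <;> omega

theorem off_eq (n : ℕ) (j : Fin 4) (r : Fin 30 × Fin 30) (t x : ℤ × ℤ) (hx : x ∈ XX j)
    (hf : Fits n j r t) : off n j r (bp r t + x) = ∑ i, MM (bp r t + x) i * zt r t i := by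
  have h : ∃ t' : ℤ × ℤ, Fits n j r t' ∧ ∃ x' ∈ XX j, bp r t + x = bp r t' + x' :=
    ⟨t, hf, x, hx, rfl⟩
  have h1 : h.choose = t := by
    obtain ⟨x', hx', he⟩ := h.choose_spec.2
    exact (bp_unique r j _ _ _ _ hx hx' he).1.symm
  rw [off, dif_pos h, h1]

theorem off_eq_zero (n : ℕ) (j : Fin 4) (r : Fin 30 × Fin 30) (a : ℤ × ℤ)
    (h : ¬ ∃ t : ℤ × ℤ, Fits n j r t ∧ ∃ x ∈ XX j, a = bp r t + x) : off n j r a = 0 := by
  rw [off, dif_neg h]

theorem off_nonneg (n : ℕ) (j : Fin 4) (r : Fin 30 × Fin 30) (a : ℤ × ℤ) : 0 ≤ off n j r a := by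
  unfold off
  split_ifs with h
  · exact Finset.sum_nonneg fun i _ => (mul_pos (MM_pos _ _) (zt_pos _ _ _)).le
  · exact le_rfl

theorem LC_sum (r : Fin 30 × Fin 30) (t t' x : ℤ × ℤ) :
    ∑ i, MM (bp r t + x) i * zt r t' i =
      LL ^ (10 * (t.1 + t.2)) * (LL ^ (x.1 + 10 * ((t'.2 - t.2) - 2 * (t'.1 - t.1))) +
        LL ^ (x.2 + 10 * ((t'.1 - t.1) - 2 * (t'.2 - t.2))) +
        LL ^ (10 * ((t'.1 - t.1) + (t'.2 - t.2)))) := by
  have hL := LC_LL_pos.ne'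
  rw [Fin.sum_univ_three, mul_add, mul_add]
  have e0 : MM (bp r t + x) 0 * zt r t' 0 = LL ^ ((bp r t + x).1) *
      LL ^ (10 * (t'.1 + t'.2) - (bp r t').1) := rfl
  have e1 : MM (bp r t + x) 1 * zt r t' 1 = LL ^ ((bp r t + x).2) *
      LL ^ (10 * (t'.1 + t'.2) - (bp r t').2) := rfl
  have e2 : MM (bp r t + x) 2 * zt r t' 2 = 1 * LL ^ (10 * (t'.1 + t'.2)) := rfl
  rw [e0, e1, e2, one_mul, ← zpow_add₀ hL, ← zpow_add₀ hL, ← zpow_add₀ hL, ← zpow_add₀ hL,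
    ← zpow_add₀ hL]
  simp only [bp, Prod.fst_add, Prod.snd_add]
  congr 1
  · congr 1
    · congr 1
      ring
    · congr 1
      ring
  · congr 1
    ring

/-- localisation: the gadget vertex `t'` satisfies strictly the constraints of the gadget `t ≠ t'` -/
theorem localised (j : Fin 4) (r : Fin 30 × Fin 30) (t t' : ℤ × ℤ) (htt : t' ≠ t) (x : ℤ × ℤ)
    (hx : x ∈ XX j) : ∑ i, MM (bp r t + x) i * zt r t i < ∑ i, MM (bp r t + x) i * zt r t' i := by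
  obtain ⟨a1, a2, a3, a4⟩ := LC_XX j x hx
  have hL := LC_LL_pos
  have hL1 := LC_LL_one
  rw [LC_sum, LC_sum]
  apply mul_lt_mul_of_pos_left _ (zpow_pos hL _)
  simp only [sub_self, mul_zero, add_zero, zpow_zero]
  have h1 : LL ^ x.1 ≤ LL ^ (4 : ℤ) := zpow_le_zpow_right₀ hL1.le a2
  have h2 : LL ^ x.2 ≤ LL ^ (4 : ℤ) := zpow_le_zpow_right₀ hL1.le a4
  have h4 : LL ^ (4 : ℤ) = 81 / 16 := by norm_num [LL]
  have h7 : LL ^ (7 : ℤ) = 2187 / 128 := by norm_num [LL]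
  have hp : ∀ m : ℤ, 0 < LL ^ m := fun m => zpow_pos hL m
  have hbig : ∀ m : ℤ, 7 ≤ m → 2187 / 128 ≤ LL ^ m := by
    intro m hm
    rw [← h7]
    exact zpow_le_zpow_right₀ hL1.le hm
  have p1 := hp (x.1 + 10 * ((t'.2 - t.2) - 2 * (t'.1 - t.1)))
  have p2 := hp (x.2 + 10 * ((t'.1 - t.1) - 2 * (t'.2 - t.2)))
  have p3 := hp (10 * ((t'.1 - t.1) + (t'.2 - t.2)))
  have hcase : 1 ≤ (t'.2 - t.2) - 2 * (t'.1 - t.1) ∨ 1 ≤ (t'.1 - t.1) - 2 * (t'.2 - t.2) ∨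
      1 ≤ (t'.1 - t.1) + (t'.2 - t.2) := by
    by_contra hcon
    push Not at hcon
    obtain ⟨c1, c2, c3⟩ := hcon
    apply htt
    apply Prod.ext <;> omega
  rcases hcase with h | h | h
  · have := hbig (x.1 + 10 * ((t'.2 - t.2) - 2 * (t'.1 - t.1))) (by omega)
    linarith
  · have := hbig (x.2 + 10 * ((t'.1 - t.1) - 2 * (t'.2 - t.2))) (by omega)
    linarith
  · have := hbig (10 * ((t'.1 - t.1) + (t'.2 - t.2))) (by omega)
    linarith

/-- consequence: all constraints hold at the gadget vertex `t'`, with equality exactly for the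
points of the gadget `t'` -/
theorem off_le (n : ℕ) (j : Fin 4) (r : Fin 30 × Fin 30) (t' : ℤ × ℤ) (hf : Fits n j r t')
    (a : ℤ × ℤ) : off n j r a ≤ ∑ i, MM a i * zt r t' i ∧
      (off n j r a = ∑ i, MM a i * zt r t' i → ∃ x ∈ XX j, a = bp r t' + x) := by
  have _ := hf
  by_cases h : ∃ t : ℤ × ℤ, Fits n j r t ∧ ∃ x ∈ XX j, a = bp r t + x
  · obtain ⟨t, hft, x, hx, rfl⟩ := h
    rw [off_eq n j r t x hx hft]
    by_cases htt : t' = t
    · subst htt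
      exact ⟨le_rfl, fun _ => ⟨x, hx, rfl⟩⟩
    · have := localised j r t t' htt x hx
      exact ⟨this.le, fun h => absurd h this.ne⟩
  · rw [off_eq_zero n j r a h]
    have : 0 < ∑ i, MM a i * zt r t' i :=
      Finset.sum_pos (fun i _ => mul_pos (MM_pos _ _) (zt_pos _ _ _)) Finset.univ_nonempty
    exact ⟨this.le, fun h => absurd h this.ne⟩

end Pool.Agent.helper78.CX
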