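import Pool.Agent.helper23.CX.LC

/-! # MP_c3df8c_co, module cx:PR : the parameters -/

open Set Filter Topology

namespace Pool.Agent.helper78.CX

theorem PR_wt_pos (n : ℕ) (k : Kap n) : 0 < wt n k := by
  rcases k with p | a
  · exact one_pos
  · exact Finset.sum_pos (fun i _ => MM_pos _ _) Finset.univ_nonempty

theorem PR_MM_le_wt (n : ℕ) (a : {a : ℤ × ℤ // a ∈ Box n}) (i : Fin 3) :
    MM a.1 i ≤ wt n (.inr a) :=
  Finset.single_le_sum (f := fun i' => MM a.1 i') (fun _ _ => (MM_pos _ _).le) (Finset.mem_univ i)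

theorem PR_eta_pos (n : ℕ) : 0 < eta n := by
  unfold eta
  have := zpow_pos LC_LL_pos (4 - (n : ℤ))
  linarith

theorem PR_corner (n : ℕ) (θ : ℝ) (q : Fin 4) (k : Kap n) :
    |bet n θ (.inl q) k| ≤ eta n * wt n k := by
  have he := PR_eta_pos n
  rcases k with ⟨i, b⟩ | a
  · cases b
    · simp only [bet]
      split_ifs
      · rw [abs_neg, abs_of_pos he]
        simp [wt]
      · simp only [abs_zero]
        exact mul_nonneg he.le (PR_wt_pos n _).le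
    · simp only [bet, abs_zero]
      exact mul_nonneg he.le (PR_wt_pos n _).le
  · simp only [bet]
    split_ifs
    · simp only [abs_zero]
      exact mul_nonneg he.le (PR_wt_pos n _).le
    · rw [abs_neg, abs_of_nonneg (mul_nonneg he.le (MM_pos _ _).le)]
      exact mul_le_mul_of_nonneg_left (PR_MM_le_wt n a _) he.le

theorem PR_scale (n : ℕ) (θ : ℝ) (l : Fin 4 ⊕ (Fin 4 × Fin 30 × Fin 30)) (k : Kap n) :
    bet n θ (.inr l) k = θ * bet n 1 (.inr l) k := by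
  rcases l with q | ⟨j, r⟩
  · rcases k with p | a
    · simp [bet]
    · simp only [bet]
      split_ifs
      · ring
      · ring
  · rcases k with p | a
    · simp [bet]
    · simp only [bet]
      ring

theorem PR_fits_bdd (n : ℕ) (j : Fin 4) (r : Fin 30 × Fin 30) (t : ℤ × ℤ) (h : Fits n j r t) :
    t ∈ (Finset.Icc (-((n : ℤ) + 33)) ((n : ℤ) + 33) ×ˢ Finset.Icc (-((n : ℤ) + 33)) ((n : ℤ) + 33)) := by
  have h00 : ∀ j : Fin 4, ((0, 0) : ℤ × ℤ) ∈ XX j := by decide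
  have h1 := h _ (h00 j)
  simp only [Box, Finset.mem_product, Finset.mem_Icc, bp, Prod.fst_add, Prod.snd_add] at h1 ⊢
  obtain ⟨⟨a1, a2⟩, a3, a4⟩ := h1
  have b1 := r.1.2
  have b2 := r.2.2
  refine ⟨⟨?_, ?_⟩, ?_, ?_⟩ <;> omega

theorem PR_exists_n (δ : ℝ) (hδ : 0 < δ) : ∃ n : ℕ, 10 ≤ n ∧ 4 * eta n ≤ δ := by
  obtain ⟨m, hm⟩ := exists_pow_lt_of_lt_one (show 0 < δ / 8 by positivity)
    (show (2 / 3 : ℝ) < 1 by norm_num)
  refine ⟨m + 10, by omega, ?_⟩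
  have hL := LC_LL_pos.ne'
  have e : LL ^ (4 - ((m + 10 : ℕ) : ℤ)) = (2 / 3 : ℝ) ^ (m + 6) := by
    have e1 : (4 : ℤ) - ((m + 10 : ℕ) : ℤ) = -((m + 6 : ℕ) : ℤ) := by push_cast; ring
    rw [e1, zpow_neg, zpow_natCast, ← inv_pow]
    congr 1
    norm_num [LL]
  unfold eta
  rw [e, pow_add]
  have h1 : (2 / 3 : ℝ) ^ 6 ≤ 1 := by norm_num
  have h2 : 0 < (2 / 3 : ℝ) ^ m := by positivity
  nlinarith

theorem exists_small (ε : ℝ) (hε : 0 < ε) : ∃ (n : ℕ) (θ : ℝ), Small n θ ε := by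
  obtain ⟨n, hn, heta⟩ := PR_exists_n (ε / 2) (by positivity)
  have hid : Tendsto (fun θ : ℝ => θ) (𝓝[>] 0) (𝓝 0) := tendsto_nhdsWithin_of_tendsto_nhds tendsto_id
  have hmul : ∀ c δ : ℝ, 0 < δ → ∀ᶠ θ : ℝ in 𝓝[>] 0, θ * c < δ := by
    intro c δ hδ
    have h1 : Tendsto (fun θ : ℝ => θ * c) (𝓝[>] 0) (𝓝 (0 * c)) := hid.mul_const c
    rw [zero_mul] at h1
    exact h1.eventually_lt_const hδ
  have h1 : ∀ᶠ θ : ℝ in 𝓝[>] 0, ∀ k : Kap n,
      θ * (∑ l : Fin 4 ⊕ (Fin 4 × Fin 30 × Fin 30), |bet n 1 (.inr l) k|) < ε / 2 * wt n k := by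
    rw [Filter.eventually_all]
    intro k
    exact hmul _ _ (mul_pos (by positivity) (PR_wt_pos n k))
  have h2 : ∀ᶠ θ : ℝ in 𝓝[>] 0, ∀ r : Fin 30 × Fin 30, ∀ t ∈ (Finset.Icc (-((n : ℤ) + 33))
      ((n : ℤ) + 33) ×ˢ Finset.Icc (-((n : ℤ) + 33)) ((n : ℤ) + 33)), ∀ i : Fin 3,
      θ * zt r t i < 1 := by
    rw [Filter.eventually_all]
    intro r
    rw [Filter.eventually_all_finset]
    intro t _
    rw [Filter.eventually_all]
    intro i
    exact hmul _ _ one_pos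
  have h3 : ∀ᶠ θ : ℝ in 𝓝[>] 0, θ < 1 := hid.eventually_lt_const one_pos
  have h4 : ∀ᶠ θ : ℝ in 𝓝[>] 0, 0 < θ := eventually_mem_nhdsWithin
  obtain ⟨θ, ⟨⟨h1, h2⟩, h3⟩, h4⟩ := (((h1.and h2).and h3).and h4).exists
  refine ⟨n, θ, hn, h4, h3, ?_, ?_⟩
  · intro k
    rw [Fintype.sum_sum_type]
    have e1 : ∑ q : Fin 4, |bet n θ (.inl q) k| ≤ ε / 2 * wt n k := by
      calc ∑ q : Fin 4, |bet n θ (.inl q) k| ≤ ∑ _q : Fin 4, eta n * wt n k :=
            Finset.sum_le_sum fun q _ => PR_corner n θ q k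
        _ = 4 * eta n * wt n k := by
            rw [Finset.sum_const, Finset.card_univ, Fintype.card_fin, nsmul_eq_mul]
            push_cast
            ring
        _ ≤ ε / 2 * wt n k := mul_le_mul_of_nonneg_right heta (PR_wt_pos n k).le
    have e2 : ∑ l : Fin 4 ⊕ (Fin 4 × Fin 30 × Fin 30), |bet n θ (.inr l) k| ≤ ε / 2 * wt n k := by
      have e3 : ∑ l : Fin 4 ⊕ (Fin 4 × Fin 30 × Fin 30), |bet n θ (.inr l) k| =
          θ * (∑ l : Fin 4 ⊕ (Fin 4 × Fin 30 × Fin 30), |bet n 1 (.inr l) k|) := by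
        rw [Finset.mul_sum]
        apply Finset.sum_congr rfl
        intro l _
        rw [PR_scale, abs_mul, abs_of_pos h4]
      rw [e3]
      exact (h1 k).le
    calc _ ≤ ε / 2 * wt n k + ε / 2 * wt n k := add_le_add e1 e2
      _ = ε * wt n k := by ring
  · intro j r t hf i
    exact h2 r t (PR_fits_bdd n j r t hf) i

end Pool.Agent.helper78.CX
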